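import Pool.Agent.Helper56.RZ.GoalsC

/-!
Project RZ2 (MP_f32c9c_an), packet LN: uniform differentiability.
-/

set_option autoImplicit false

open Set Filter Topology MeasureTheory

open scoped ContDiff

namespace Pool.Agent.Helper65.RZ

open Pool.Agent.Helper56.RZ

theorem core {N K : ℕ} (q u : E K) (v : E N) (D : End K) (DF DF0 Dp Dp0 : E N →L[ℝ] E K)
    (η B1 B2 ε : ℝ) (hη : 0 ≤ η) (hB1 : 0 ≤ B1) (hB2 : 0 ≤ B2) (h : D (Dp v) = DF v)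
    (s1 : ‖u - DF0 v‖ ≤ η * ‖v‖) (c1 : ‖DF - DF0‖ ≤ η)
    (s2 : ‖q - Dp0 v‖ ≤ η * ‖v‖) (c2 : ‖Dp - Dp0‖ ≤ η) (hD : ‖D‖ ≤ B1 * B2)
    (hL : ‖v‖ ≤ B2 * ‖q‖) (he : (2 * η + B1 * B2 * (2 * η)) * B2 = ε) :
    ‖u - D q‖ ≤ ε * ‖q‖ := by
  have e1 : ‖u - DF v‖ ≤ 2 * η * ‖v‖ := by
    have h1 : u - DF v = (u - DF0 v) - (DF - DF0) v := by
      change u - DF v = (u - DF0 v) - (DF v - DF0 v)
      abel
    rw [h1]
    have h2 : ‖(DF - DF0) v‖ ≤ η * ‖v‖ :=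
      (ContinuousLinearMap.le_opNorm _ _).trans (mul_le_mul_of_nonneg_right c1 (norm_nonneg _))
    have h3 := norm_sub_le (u - DF0 v) ((DF - DF0) v)
    linarith
  have e2 : ‖q - Dp v‖ ≤ 2 * η * ‖v‖ := by
    have h1 : q - Dp v = (q - Dp0 v) - (Dp - Dp0) v := by
      change q - Dp v = (q - Dp0 v) - (Dp v - Dp0 v)
      abel
    rw [h1]
    have h2 : ‖(Dp - Dp0) v‖ ≤ η * ‖v‖ :=
      (ContinuousLinearMap.le_opNorm _ _).trans (mul_le_mul_of_nonneg_right c2 (norm_nonneg _))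
    have h3 := norm_sub_le (q - Dp0 v) ((Dp - Dp0) v)
    linarith
  have h6 : u - D q = (u - DF v) - D (q - Dp v) := by
    rw [map_sub D q, h]
    abel
  rw [h6]
  have h7 : ‖D (q - Dp v)‖ ≤ (B1 * B2) * (2 * η * ‖v‖) :=
    (ContinuousLinearMap.le_opNorm _ _).trans
      (mul_le_mul hD e2 (norm_nonneg _) (mul_nonneg hB1 hB2))
  have h8 := norm_sub_le (u - DF v) (D (q - Dp v))
  have h9 : (2 * η + B1 * B2 * (2 * η)) * ‖v‖ ≤ (2 * η + B1 * B2 * (2 * η)) * (B2 * ‖q‖) :=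
    mul_le_mul_of_nonneg_left hL (by positivity)
  have h10 : (2 * η + B1 * B2 * (2 * η)) * (B2 * ‖q‖) = ε * ‖q‖ := by rw [← he]; ring
  nlinarith

theorem chain1 {N K : ℕ} {M : Set (E K)} (c : Chart N K M) (f : E K → E K)
    (hf : ContDiffOn ℝ 1 f M) (hψ1 : ContDiffOn ℝ 1 c.ψ c.V) (z : E N) (hz : z ∈ c.V) :
    fderiv ℝ (fun w => f (c.ψ w)) z =
      (fderivWithin ℝ f M (c.ψ z)) ∘L (fderiv ℝ c.ψ z) := by
  have h1 : HasFDerivWithinAt f (fderivWithin ℝ f M (c.ψ z)) M (c.ψ z) :=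
    ((hf.differentiableOn (by simp)) (c.ψ z) (c.mapsψ z hz).1).hasFDerivWithinAt
  have h2 : HasFDerivAt c.ψ (fderiv ℝ c.ψ z) z :=
    ((hψ1.contDiffAt (c.openV.mem_nhds hz)).differentiableAt (by simp)).hasFDerivAt
  have h3 : ∀ᶠ w in 𝓝 z, c.ψ w ∈ M := by
    filter_upwards [c.openV.mem_nhds hz] with w hw using (c.mapsψ w hw).1
  exact (h1.comp_hasFDerivAt z h2 h3).fderiv

theorem der1 (hT1 : StmtT1) {N K : ℕ} {M : Set (E K)} (c : Chart N K M) (f : E K → E K)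
    (hf : ContDiffOn ℝ 1 f M) (hψ1 : ContDiffOn ℝ 1 c.ψ c.V) (z : E N) (hz : z ∈ c.V)
    (v : E N) : der M f (c.ψ z) (fderiv ℝ c.ψ z v) = fderiv ℝ (fun w => f (c.ψ w)) z v := by
  have h1 := (hT1 N K M c z hz).2.1
  have h2 : Pi M (c.ψ z) (fderiv ℝ c.ψ z v) = fderiv ℝ c.ψ z v :=
    congrArg (fun A : E N →L[ℝ] E K => A v) h1
  rw [chain1 c f hf hψ1 z hz]
  change fderivWithin ℝ f M (c.ψ z) (Pi M (c.ψ z) (fderiv ℝ c.ψ z v)) = _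
  rw [h2]
  rfl

theorem der2 (hT1 : StmtT1) {N K : ℕ} {M : Set (E K)} (c : Chart N K M) (f : E K → E K)
    (hf : ContDiffOn ℝ 1 f M) (hψ1 : ContDiffOn ℝ 1 c.ψ c.V) (z : E N) (hz : z ∈ c.V) :
    ‖der M f (c.ψ z)‖ ≤
      ‖fderiv ℝ (fun w => f (c.ψ w)) z‖ * ‖fderiv ℝ c.φ (c.ψ z)‖ := by
  have h1 := (hT1 N K M c z hz).2.2
  have h2 : der M f (c.ψ z) = (fderiv ℝ (fun w => f (c.ψ w)) z) ∘L
      ((fderiv ℝ c.φ (c.ψ z)) ∘L (Pi M (c.ψ z))) := by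
    have h3 : der M f (c.ψ z) = (fderivWithin ℝ f M (c.ψ z)) ∘L (Pi M (c.ψ z)) := rfl
    rw [chain1 c f hf hψ1 z hz, h3]
    nth_rewrite 1 [← h1]
    rfl
  rw [h2]
  have h3 : ‖Pi M (c.ψ z)‖ ≤ 1 := Submodule.starProjection_norm_le _
  have h4 : ‖(fderiv ℝ c.φ (c.ψ z)) ∘L (Pi M (c.ψ z))‖ ≤ ‖fderiv ℝ c.φ (c.ψ z)‖ := by
    refine (ContinuousLinearMap.opNorm_comp_le _ _).trans ?_
    calc _ ≤ ‖fderiv ℝ c.φ (c.ψ z)‖ * 1 := mul_le_mul_of_nonneg_left h3 (norm_nonneg _)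
      _ = _ := mul_one _
  exact (ContinuousLinearMap.opNorm_comp_le _ _).trans
    (mul_le_mul_of_nonneg_left h4 (norm_nonneg _))

/-- The local estimates in terms of the maps `F = f ∘ ψ`, `ψ`, `φ`. -/
theorem ev {N K : ℕ} (F ψ : E N → E K) (φ : E K → E N) (V : Set (E N)) (W : Set (E K))
    (oV : IsOpen V) (oW : IsOpen W) (z0 : E N) (x0 : E K) (hz : z0 ∈ V) (hx : x0 ∈ W)
    (hφ0 : φ x0 = z0) (hF : ContDiffOn ℝ 1 F V) (hψ : ContDiffOn ℝ 1 ψ V)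
    (hφ : ContDiffOn ℝ 1 φ W) (η : ℝ) (hη : 0 < η) :
    ∀ᶠ p : E K × E K in 𝓝 (x0, x0), p.1 ∈ W ∧ p.2 ∈ W ∧
      ‖F (φ p.2) - F (φ p.1) - fderiv ℝ F z0 (φ p.2 - φ p.1)‖ ≤ η * ‖φ p.2 - φ p.1‖ ∧
      ‖ψ (φ p.2) - ψ (φ p.1) - fderiv ℝ ψ z0 (φ p.2 - φ p.1)‖ ≤ η * ‖φ p.2 - φ p.1‖ ∧
      ‖φ p.2 - φ p.1‖ ≤ (‖fderiv ℝ φ x0‖ + 1) * ‖p.2 - p.1‖ ∧
      ‖fderiv ℝ F (φ p.1) - fderiv ℝ F z0‖ ≤ η ∧
      ‖fderiv ℝ F (φ p.1) - fderiv ℝ F z0‖ ≤ 1 ∧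
      ‖fderiv ℝ ψ (φ p.1) - fderiv ℝ ψ z0‖ ≤ η ∧
      ‖fderiv ℝ φ p.1 - fderiv ℝ φ x0‖ ≤ 1 := by
  have hV : V ∈ 𝓝 z0 := oV.mem_nhds hz
  have hW : W ∈ 𝓝 x0 := oW.mem_nhds hx
  have S1 : ∀ᶠ p : E N × E N in 𝓝 (z0, z0), ‖F p.1 - F p.2 -
      fderiv ℝ F z0 (p.1 - p.2)‖ ≤ η * ‖p.1 - p.2‖ :=
    ((hF.contDiffAt hV).hasStrictFDerivAt (by simp)).isLittleO.def hη
  have S2 : ∀ᶠ p : E N × E N in 𝓝 (z0, z0), ‖ψ p.1 - ψ p.2 -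
      fderiv ℝ ψ z0 (p.1 - p.2)‖ ≤ η * ‖p.1 - p.2‖ :=
    ((hψ.contDiffAt hV).hasStrictFDerivAt (by simp)).isLittleO.def hη
  have S3 : ∀ᶠ p : E K × E K in 𝓝 (x0, x0), ‖φ p.1 - φ p.2 -
      fderiv ℝ φ x0 (p.1 - p.2)‖ ≤ 1 * ‖p.1 - p.2‖ :=
    ((hφ.contDiffAt hW).hasStrictFDerivAt (by simp)).isLittleO.def one_pos
  have cF : ContinuousAt (fderiv ℝ F) z0 :=
    (hF.continuousOn_fderiv_of_isOpen oV le_rfl).continuousAt hV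
  have cψ : ContinuousAt (fderiv ℝ ψ) z0 :=
    (hψ.continuousOn_fderiv_of_isOpen oV le_rfl).continuousAt hV
  have cφ : ContinuousAt (fderiv ℝ φ) x0 :=
    (hφ.continuousOn_fderiv_of_isOpen oW le_rfl).continuousAt hW
  have C1 : ∀ᶠ z in 𝓝 z0, ‖fderiv ℝ F z - fderiv ℝ F z0‖ < η := by
    have := Metric.continuousAt_iff'.1 cF η hη
    simpa only [dist_eq_norm] using this
  have C1' : ∀ᶠ z in 𝓝 z0, ‖fderiv ℝ F z - fderiv ℝ F z0‖ < 1 := by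
    have := Metric.continuousAt_iff'.1 cF 1 one_pos
    simpa only [dist_eq_norm] using this
  have C2 : ∀ᶠ z in 𝓝 z0, ‖fderiv ℝ ψ z - fderiv ℝ ψ z0‖ < η := by
    have := Metric.continuousAt_iff'.1 cψ η hη
    simpa only [dist_eq_norm] using this
  have C3 : ∀ᶠ x in 𝓝 x0, ‖fderiv ℝ φ x - fderiv ℝ φ x0‖ < 1 := by
    have := Metric.continuousAt_iff'.1 cφ 1 one_pos
    simpa only [dist_eq_norm] using this
  have tφ : Tendsto φ (𝓝 x0) (𝓝 z0) := by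
    rw [← hφ0]
    exact (hφ.contDiffAt hW).continuousAt
  have t5 : Tendsto (fun p : E K × E K => p.1) (𝓝 (x0, x0)) (𝓝 x0) :=
    continuous_fst.continuousAt
  have t6 : Tendsto (fun p : E K × E K => p.2) (𝓝 (x0, x0)) (𝓝 x0) :=
    continuous_snd.continuousAt
  have t1 : Tendsto (fun p : E K × E K => φ p.1) (𝓝 (x0, x0)) (𝓝 z0) := tφ.comp t5
  have t2 : Tendsto (fun p : E K × E K => φ p.2) (𝓝 (x0, x0)) (𝓝 z0) := tφ.comp t6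
  have t3 : Tendsto (fun p : E K × E K => (φ p.2, φ p.1)) (𝓝 (x0, x0)) (𝓝 (z0, z0)) := by
    rw [nhds_prod_eq (x := z0) (y := z0)]
    exact t2.prodMk t1
  have t4 : Tendsto (fun p : E K × E K => (p.2, p.1)) (𝓝 (x0, x0)) (𝓝 (x0, x0)) :=
    continuous_swap.tendsto (x0, x0)
  have a1 := t3.eventually S1
  have a2 := t3.eventually S2
  have a3 := t4.eventually S3
  have a4 := t1.eventually C1
  have a5 := t1.eventually C1'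
  have a6 := t1.eventually C2
  have a7 := t5.eventually C3
  have a8 := t5.eventually hW
  have a9 := t6.eventually hW
  refine (a8.and (a9.and (a1.and (a2.and (a3.and (a4.and (a5.and (a6.and a7)))))))).mono ?_
  rintro ⟨x, y⟩ ⟨w1, w2, s1, s2, s3, c1, c1', c2, c3⟩
  refine ⟨w1, w2, s1, s2, ?_, c1.le, c1'.le, c2.le, c3.le⟩
  have h1 : φ y - φ x = (φ y - φ x - fderiv ℝ φ x0 (y - x)) + fderiv ℝ φ x0 (y - x) := by abel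
  have h2 := norm_add_le (φ y - φ x - fderiv ℝ φ x0 (y - x)) (fderiv ℝ φ x0 (y - x))
  rw [← h1] at h2
  have h3 : ‖fderiv ℝ φ x0 (y - x)‖ ≤ ‖fderiv ℝ φ x0‖ * ‖y - x‖ :=
    ContinuousLinearMap.le_opNorm _ _
  have h4 : ‖φ y - φ x - fderiv ℝ φ x0 (y - x)‖ ≤ 1 * ‖y - x‖ := s3
  change ‖φ y - φ x‖ ≤ (‖fderiv ℝ φ x0‖ + 1) * ‖y - x‖
  linarith

theorem ln_local (hT1 : StmtT1) {N K : ℕ} {M : Set (E K)} (c : Chart N K M) (x0 : E K)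
    (hx0 : x0 ∈ M) (hxW : x0 ∈ c.W) (f : E K → E K) (hf : ContDiffOn ℝ 1 f M) (ε : ℝ)
    (hε : 0 < ε) : ∃ ρ > 0, ∀ x ∈ M, ∀ y ∈ M, dist x x0 < ρ → dist y x0 < ρ →
      ‖f y - f x - der M f x (y - x)‖ ≤ ε * ‖y - x‖ := by
  have hz0 : c.φ x0 ∈ c.V := c.mapsφ x0 ⟨hx0, hxW⟩
  have hψ1 : ContDiffOn ℝ 1 c.ψ c.V := c.smoothψ.of_le (by norm_cast)
  have hφ1 : ContDiffOn ℝ 1 c.φ c.W := c.smoothφ.of_le (by norm_cast)
  have hF1 : ContDiffOn ℝ 1 (fun w => f (c.ψ w)) c.V :=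
    hf.comp hψ1 (fun z hz => (c.mapsψ z hz).1)
  obtain ⟨B1, hB1⟩ : ∃ B, B = ‖fderiv ℝ (fun w => f (c.ψ w)) (c.φ x0)‖ + 1 := ⟨_, rfl⟩
  obtain ⟨B2, hB2⟩ : ∃ B, B = ‖fderiv ℝ c.φ x0‖ + 1 := ⟨_, rfl⟩
  have hB1p : 0 < B1 := by rw [hB1]; positivity
  have hB2p : 0 < B2 := by rw [hB2]; positivity
  obtain ⟨η, hη⟩ : ∃ η, η = ε / (2 * B2 * (1 + B1 * B2)) := ⟨_, rfl⟩
  have hηp : 0 < η := by rw [hη]; positivity
  have hηe : (2 * η + B1 * B2 * (2 * η)) * B2 = ε := by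
    rw [hη]
    field_simp
  have hev := ev (fun w => f (c.ψ w)) c.ψ c.φ c.V c.W c.openV c.openW (c.φ x0) x0 hz0 hxW rfl
    hF1 hψ1 hφ1 η hηp
  obtain ⟨ρ, hρ, hb⟩ := Metric.eventually_nhds_iff.1 hev
  refine ⟨ρ, hρ, fun x hx y hy h1 h2 => ?_⟩
  have h3 : dist (x, y) (x0, x0) < ρ := by
    rw [Prod.dist_eq]
    exact max_lt h1 h2
  obtain ⟨w1, w2, s1, s2, s3, c1, c1', c2, c3⟩ := hb h3
  change x ∈ c.W at w1
  change y ∈ c.W at w2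
  have hzV : c.φ x ∈ c.V := c.mapsφ x ⟨hx, w1⟩
  have hxz : c.ψ (c.φ x) = x := c.right x ⟨hx, w1⟩
  have hyw : c.ψ (c.φ y) = y := c.right y ⟨hy, w2⟩
  have s1' : ‖(f y - f x) - fderiv ℝ (fun w => f (c.ψ w)) (c.φ x0) (c.φ y - c.φ x)‖ ≤
      η * ‖c.φ y - c.φ x‖ := by
    have h := s1
    simp only [hxz, hyw] at h
    exact h
  have s2' : ‖(y - x) - fderiv ℝ c.ψ (c.φ x0) (c.φ y - c.φ x)‖ ≤ η * ‖c.φ y - c.φ x‖ := by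
    have h := s2
    simp only [hxz, hyw] at h
    exact h
  have h4 := der1 hT1 c f hf hψ1 (c.φ x) hzV (c.φ y - c.φ x)
  have h5 := der2 hT1 c f hf hψ1 (c.φ x) hzV
  rw [hxz] at h4 h5
  have n1 : ‖fderiv ℝ (fun w => f (c.ψ w)) (c.φ x)‖ ≤ B1 := by
    have h := norm_le_insert' (fderiv ℝ (fun w => f (c.ψ w)) (c.φ x))
      (fderiv ℝ (fun w => f (c.ψ w)) (c.φ x0))
    have h' : ‖fderiv ℝ (fun w => f (c.ψ w)) (c.φ x) -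
      fderiv ℝ (fun w => f (c.ψ w)) (c.φ x0)‖ ≤ 1 := c1'
    linarith
  have n2 : ‖fderiv ℝ c.φ x‖ ≤ B2 := by
    have h := norm_le_insert' (fderiv ℝ c.φ x) (fderiv ℝ c.φ x0)
    have h' : ‖fderiv ℝ c.φ x - fderiv ℝ c.φ x0‖ ≤ 1 := c3
    linarith
  have hA : ‖der M f x‖ ≤ B1 * B2 := h5.trans (mul_le_mul n1 n2 (norm_nonneg _) hB1p.le)
  have s3' : ‖c.φ y - c.φ x‖ ≤ B2 * ‖y - x‖ := by
    rw [hB2]
    exact s3
  exact core (y - x) (f y - f x) (c.φ y - c.φ x) (der M f x) _ _ _ _ η B1 B2 ε hηp.le hB1p.le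
    hB2p.le h4 s1' c1 s2' c2 hA s3' hηe

theorem ln (hT1 : StmtT1) : StmtLN := by
  intro N K M m f hM hf ε hε
  have h1 : ∀ x0 : M, ∃ ρ > 0, ∀ x ∈ M, ∀ y ∈ M, dist x x0 < ρ → dist y x0 < ρ →
      ‖f y - f x - der M f x (y - x)‖ ≤ ε * ‖y - x‖ := by
    intro x0
    obtain ⟨c, hc, -⟩ := hM.chart x0.1 x0.2
    exact ln_local hT1 c x0.1 x0.2 hc f hf ε hε
  choose ρ hρ hb using h1
  obtain ⟨δ, hδ, hl⟩ := lebesgue_number_lemma_of_metric (c := fun x0 : M => Metric.ball x0.1 (ρ x0))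
    hM.compact (fun _ => Metric.isOpen_ball)
    (fun x hx => mem_iUnion.2 ⟨⟨x, hx⟩, Metric.mem_ball_self (hρ _)⟩)
  refine ⟨δ / 2, by positivity, fun x hx y hy hxy => ?_⟩
  obtain ⟨x0, hx0⟩ := hl x hx
  have h2 : x ∈ Metric.ball x0.1 (ρ x0) := hx0 (Metric.mem_ball_self hδ)
  have h3 : y ∈ Metric.ball x0.1 (ρ x0) := by
    apply hx0
    rw [Metric.mem_ball, dist_eq_norm]
    linarith
  exact hb x0 x hx y hy h2 h3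

end Pool.Agent.Helper65.RZ
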